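import Pool.Agent.Helper70.BN.St3

/-!
Project BN (helper70), module NPRD: products of double cosets.
-/

set_option autoImplicit false

namespace Pool.Agent.Helper36.BN

open Pool.Agent.Helper70.BN Pool.Agent.Helper75.MX

theorem nw_append {Q : Type} [Group Q] {l : ℕ} (n : Fin l → Q) (u v : List (Fin l)) :
    nw n (u ++ v) = nw n u * nw n v := by
  unfold nw
  rw [List.map_append, List.prod_append]

theorem nw_cons {Q : Type} [Group Q] {l : ℕ} (n : Fin l → Q) (i : Fin l) (u : List (Fin l)) :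
    nw n (i :: u) = n i * nw n u := by
  unfold nw
  rw [List.map_cons, List.prod_cons]

theorem nw_single {Q : Type} [Group Q] {l : ℕ} (n : Fin l → Q) (i : Fin l) :
    nw n [i] = n i := by
  unfold nw
  simp

theorem nw_mem {Q : Type} [Group Q] {l : ℕ} {B N : Subgroup Q} {n : Fin l → Q} {q : Fin l → ℕ}
    (h : BNpair B N n q) (u : List (Fin l)) : nw n u ∈ N := by
  induction u with
  | nil => exact N.one_mem
  | cons i u ih =>
    rw [nw_cons]
    exact N.mul_mem (h.mem i) ih

theorem n_notMem {Q : Type} [Group Q] [Finite Q] {l : ℕ} {B N : Subgroup Q} {n : Fin l → Q}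
    {q : Fin l → ℕ} (h : BNpair B N n q) (i : Fin l) : n i ∉ B := by
  intro hi
  obtain ⟨h1, h2⟩ := h.par i
  have h3 : Nat.card {b : B // (n i)⁻¹ * b * n i ∈ B} = Nat.card B := by
    refine Nat.card_congr (Equiv.subtypeUnivEquiv fun b => ?_)
    exact B.mul_mem (B.mul_mem (B.inv_mem hi) b.2) hi
  rw [h3] at h2
  have h4 : 0 < Nat.card B := Nat.card_pos
  nlinarith

theorem hNPRD (hNBRU : StNBRU) : StNPRD := by
  intro Q _ _ l B N n q h
  have hn : ∀ i, n i ∉ B := fun i => n_notMem h i
  refine ⟨hn, ?_⟩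
  have hright : ∀ x ∈ N, ∀ y ∈ N, ∀ z ∈ N, x⁻¹ * y ∈ B → (x * z)⁻¹ * (y * z) ∈ B := by
    intro x hx y hy z hz hxy
    have h1 := h.norm z⁻¹ (N.inv_mem hz) (x⁻¹ * y) hxy (N.mul_mem (N.inv_mem hx) hy)
    have h2 : (x * z)⁻¹ * (y * z) = z⁻¹ * (x⁻¹ * y) * z⁻¹⁻¹ := by group
    rw [h2]
    exact h1
  intro u
  induction u using List.reverseRecOn with
  | nil =>
    intro i _ _ b hb
    refine ⟨1, B.one_mem, b, hb, ?_⟩
    rw [nw_single]
    show n i * b * 1 = 1 * n i * b
    group
  | append_singleton u' t ih =>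
    intro i hg hv b hb
    have hu' := nw_mem h u'
    have e1 : nw n (u' ++ [t]) = nw n u' * n t := by rw [nw_append, nw_single]
    have hg' : Geo B n u' := by
      intro v hvv
      have h1 := hright _ (nw_mem h v) _ hu' _ (h.mem t) hvv
      have h2 := hg (v ++ [t]) (by rw [e1, nw_append, nw_single]; exact h1)
      rw [List.length_append, List.length_append] at h2
      omega
    have hv' : ∀ v, (nw n v)⁻¹ * nw n (i :: u') ∈ B → u'.length ≤ v.length := by
      intro v hvv
      have h1 := hright _ (nw_mem h v) _ (nw_mem h (i :: u')) _ (h.mem t) hvv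
      rw [nw_cons, mul_assoc] at h1
      have h2 := hv (v ++ [t]) (by
        rw [nw_append, nw_single, nw_cons, e1]
        exact h1)
      rw [List.length_append, List.length_append] at h2
      omega
    obtain ⟨d, hd, d', hd', hdd⟩ := ih i hg' hv' b hb
    rw [nw_cons] at hdd
    rcases h.ax i b hb (nw n (u' ++ [t])) (nw_mem h _) with h1 | h1
    · exfalso
      obtain ⟨b1, hb1, b2, hb2, hbb⟩ := h1
      -- the inverse of the axiom
      have key : n i * b * nw n u' = b1 * (nw n (u' ++ [t]) * b2 * (n t)⁻¹) := by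
        have h2 : n i * b * nw n u' = n i * b * nw n (u' ++ [t]) * (n t)⁻¹ := by
          rw [e1]; group
        rw [h2, hbb]
        group
      rcases h.ax t b2⁻¹ (B.inv_mem hb2) (nw n (u' ++ [t]))⁻¹ (N.inv_mem (nw_mem h _))
        with h3 | h3
      · obtain ⟨c, hc, c', hc', hcc⟩ := h3
        have h4 : nw n (u' ++ [t]) * b2 * (n t)⁻¹ = c'⁻¹ * nw n (u' ++ [t]) * c⁻¹ := by
          have h5 := congrArg (fun x => x⁻¹) hcc
          simp only [mul_inv_rev, inv_inv] at h5
          rw [mul_assoc, h5, mul_assoc]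
        have h6 : DC B (n i * nw n u') (nw n (u' ++ [t])) := by
          refine ⟨(b1 * c'⁻¹)⁻¹ * d, B.mul_mem (B.inv_mem (B.mul_mem hb1 (B.inv_mem hc'))) hd,
            d' * c, B.mul_mem hd' hc, ?_⟩
          rw [h4] at key
          have h7 : nw n (u' ++ [t]) = (b1 * c'⁻¹)⁻¹ * (b1 * (c'⁻¹ * nw n (u' ++ [t]) * c⁻¹)) * c := by
            group
          rw [h7, ← key, hdd]
          group
        have h8 := hNBRU Q l B N n q h _ (N.mul_mem (h.mem i) hu') _ (nw_mem h (u' ++ [t])) h6
        have h9 : (nw n u')⁻¹ * nw n (i :: (u' ++ [t])) ∈ B := by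
          have h10 := h.norm (nw n u')⁻¹ (N.inv_mem hu') (n i * n i) (h.sq i)
            (N.mul_mem (h.mem i) (h.mem i))
          have h11 := B.mul_mem h10 h8
          rw [nw_cons]
          have h12 : (nw n u')⁻¹ * (n i * nw n (u' ++ [t])) = (nw n u')⁻¹ * (n i * n i) *
              (nw n u')⁻¹⁻¹ * ((n i * nw n u')⁻¹ * nw n (u' ++ [t])) := by group
          rw [h12]
          exact h11
        have h13 := hv u' h9
        rw [List.length_append, List.length_singleton] at h13
        omega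
      · obtain ⟨c, hc, c', hc', hcc⟩ := h3
        have h4 : nw n (u' ++ [t]) * b2 * (n t)⁻¹ = c'⁻¹ * nw n u' * c⁻¹ := by
          have h5 := congrArg (fun x => x⁻¹) hcc
          simp only [mul_inv_rev, inv_inv] at h5
          rw [mul_assoc, h5, e1]
          group
        have h6 : DC B (n i * nw n u') (nw n u') := by
          refine ⟨(b1 * c'⁻¹)⁻¹ * d, B.mul_mem (B.inv_mem (B.mul_mem hb1 (B.inv_mem hc'))) hd,
            d' * c, B.mul_mem hd' hc, ?_⟩
          rw [h4] at key
          have h7 : nw n u' = (b1 * c'⁻¹)⁻¹ * (b1 * (c'⁻¹ * nw n u' * c⁻¹)) * c := by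
            group
          calc nw n u' = (b1 * c'⁻¹)⁻¹ * (b1 * (c'⁻¹ * nw n u' * c⁻¹)) * c := h7
            _ = (b1 * c'⁻¹)⁻¹ * (n i * b * nw n u') * c := by rw [key]
            _ = (b1 * c'⁻¹)⁻¹ * (d * (n i * nw n u') * d') * c := by rw [hdd]
            _ = (b1 * c'⁻¹)⁻¹ * d * (n i * nw n u') * (d' * c) := by group
        have h8 := hNBRU Q l B N n q h _ (N.mul_mem (h.mem i) hu') _ hu' h6
        have h9 := h.norm (nw n u') hu' _ h8
          (N.mul_mem (N.inv_mem (N.mul_mem (h.mem i) hu')) hu')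
        have h10 : nw n u' * ((n i * nw n u')⁻¹ * nw n u') * (nw n u')⁻¹ = (n i)⁻¹ := by group
        rw [h10] at h9
        exact hn i (by simpa using B.inv_mem h9)
    · rw [nw_cons]
      exact h1

end Pool.Agent.Helper36.BN
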