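import Pool.Agent.Helper70.BN.St1

/-!
Project BN (helper70), module RLAD: the ladder, crystallographic case.
-/

set_option autoImplicit false

namespace Pool.Agent.Helper36.BN

open Pool.Agent.Helper70.BN

theorem EE_gt {l : ℕ} (q : Fin l → ℕ) (hq : ∀ i, 2 ≤ q i) (β : Fin l → ℤ) (h0 : 0 ≤ β)
    (hne : β ≠ 0) : 1 < EE q β := by
  have hq1 : ∀ j, (1 : ℝ) < (q j : ℝ) := fun j => by
    have := hq j
    exact_mod_cast (by omega : 1 < q j)
  have hex : ∃ j, β j ≠ 0 := by
    by_contra h
    push Not at h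
    exact hne (funext h)
  obtain ⟨j, hj⟩ := hex
  have h1 : (∏ _i : Fin l, (1 : ℝ)) < ∏ i, (q i : ℝ) ^ (β i) := by
    apply Finset.prod_lt_prod
    · intro i _
      exact one_pos
    · intro i _
      exact one_le_zpow₀ (hq1 i).le (h0 i)
    · refine ⟨j, Finset.mem_univ j, ?_⟩
      have h2 : 0 ≤ β j := h0 j
      exact one_lt_zpow₀ (hq1 j) (by omega)
  rw [Finset.prod_const_one] at h1
  exact h1

theorem EE_al {l : ℕ} (q : Fin l → ℕ) (i : Fin l) : EE q (al i) = q i := by
  unfold EE al
  rw [Finset.prod_eq_single i]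
  · simp
  · intro b _ hb
    simp [hb]
  · intro h
    exact absurd (Finset.mem_univ i) h

theorem hRLAD (hRLONG : StRLONG) (hRMAT : StRMAT) : StRLAD := by
  intro l A d Φ hRS q hq hm H _ _ T hT
  obtain ⟨w, hw, hwi⟩ := hRLONG l A d Φ hRS
  refine ⟨WC A q (wa A []) w, ?_, ?_, ?_⟩
  · have h1 : (WC A q (wa A []) w).map Prod.fst = w := by
      unfold WC
      rw [List.map_map]
      have h2 : (Prod.fst ∘ fun p : Fin l × (Fin l → ℤ) => (p.1, cc q p.1 (wa A [] p.2)))
          = Prod.fst := rfl
      rw [h2]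
      exact List.map_fst_zip (by rw [rts_length])
    rw [h1]
    exact hw
  · intro x hx
    unfold WC at hx
    obtain ⟨y, hy, rfl⟩ := List.mem_map.1 hx
    have hy2 : y.2 ∈ rts A w := (List.of_mem_zip hy).2
    show 0 < cc q y.1 (wa A [] y.2)
    rw [wa_nil]
    have h1 : 1 < EE q y.2 := EE_gt q hq y.2 (hw _ hy2) (hRS.ne _ (rts_mem hRS w hy2))
    unfold cc
    have h2 : (1 : ℝ) < (q y.1 : ℝ) := by
      have := hq y.1
      exact_mod_cast (by omega : 1 < q y.1)
    exact div_pos (by linarith) (by linarith)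
  · intro i
    obtain ⟨w', hr, hw'⟩ := hwi i
    have h1 := hRMAT l A d Φ hRS q hq hm H T hT w (i :: w') hw hr (fun v => (hw' v).symm) []
      (fun β hβ => hw β hβ)
    rw [h1]
    have h2 : PR T (WC A q (wa A []) (i :: w')) = (algebraMap ℝ H (cc q i (al i)) + T i) *
        PR T (((w'.zip ((rts A w').map (sr A i))).map fun p => (p.1, cc q p.1 (wa A [] p.2)))) := by
      unfold PR WC
      rw [rts_cons, List.zip_cons_cons, List.map_cons, List.map_cons, List.prod_cons, wa_nil]
    have h3 : cc q i (al i) = 1 := by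
      unfold cc
      rw [EE_al]
      have h4 : (1 : ℝ) < (q i : ℝ) := by
        have := hq i
        exact_mod_cast (by omega : 1 < q i)
      exact div_self (by linarith)
    rw [h2, h3, map_one, ← mul_assoc, ← mul_assoc]
    congr 1
    rw [mul_add, mul_add, hT.1 i, mul_one, mul_one, map_sub, map_one, sub_mul, one_mul]
    abel

end Pool.Agent.Helper36.BN
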